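import Mathlib
import Pool.Agent.Lib.MP_41a254_co.FiveSharp

namespace Pool.Agent.Results.MP_41a254_co.PieceThreshold

/-- A convex body in `ℝ³`: a compact convex set with nonempty interior. -/
def IsBody (K : Set (EuclideanSpace ℝ (Fin 3))) : Prop :=
  IsCompact K ∧ Convex ℝ K ∧ (interior K).Nonempty

/-- For any three distinct members `A, B, C` a plane `f = c` separates `A ∪ B` from `C`
(strictly if `strict` is `true`, weakly otherwise). -/
def IsSeparable (strict : Bool) (F : Finset (Set (EuclideanSpace ℝ (Fin 3)))) : Prop :=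
  ∀ A ∈ F, ∀ B ∈ F, ∀ C ∈ F, A ≠ B → A ≠ C → B ≠ C →
    ∃ (f : EuclideanSpace ℝ (Fin 3) →L[ℝ] ℝ) (c : ℝ), f ≠ 0 ∧
      (∀ x ∈ A ∪ B, f x ≤ c ∧ (strict = true → f x < c)) ∧
      (∀ x ∈ C, c ≤ f x ∧ (strict = true → c < f x))

/-- The plane `f = c` meets `K`, and `K` lies in the half-space `f ≤ c` (or, if `twoSided` is
`true`, in one of the half-spaces `f ≤ c`, `f ≥ c`). -/
def Supports (twoSided : Bool) (f : EuclideanSpace ℝ (Fin 3) →L[ℝ] ℝ) (c : ℝ)
    (K : Set (EuclideanSpace ℝ (Fin 3))) : Prop :=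
  (∃ x ∈ K, f x = c) ∧ ((∀ x ∈ K, f x ≤ c) ∨ (twoSided = true ∧ ∀ x ∈ K, c ≤ f x))

/-- No four distinct members have a common supporting plane. -/
def IsNondegenerate (twoSided : Bool) (F : Finset (Set (EuclideanSpace ℝ (Fin 3)))) : Prop :=
  ∀ A ∈ F, ∀ B ∈ F, ∀ C ∈ F, ∀ D ∈ F, A ≠ B → A ≠ C → A ≠ D → B ≠ C → B ≠ D → C ≠ D →
    ¬ ∃ (f : EuclideanSpace ℝ (Fin 3) →L[ℝ] ℝ) (c : ℝ), f ≠ 0 ∧ Supports twoSided f c A ∧
      Supports twoSided f c B ∧ Supports twoSided f c C ∧ Supports twoSided f c D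

/-- For each member `C`, the boundary of the convex hull of the union contains a nonempty
relatively open piece `U ∩ ∂C` of the boundary of `C`. -/
def InConvexPosition (F : Finset (Set (EuclideanSpace ℝ (Fin 3)))) : Prop :=
  ∀ C ∈ F, ∃ U : Set (EuclideanSpace ℝ (Fin 3)), IsOpen U ∧ (U ∩ frontier C).Nonempty ∧
    U ∩ frontier C ⊆ frontier (convexHull ℝ (⋃ K ∈ F, K))

/-- For every `m`, every sufficiently large separable nondegenerate family of convex bodies in
which every `k` members are in convex position has `m` members in convex position. -/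
def Forces (strict twoSided : Bool) (k : ℕ) : Prop :=
  ∀ m : ℕ, ∃ N : ℕ, ∀ F : Finset (Set (EuclideanSpace ℝ (Fin 3))), N ≤ F.card →
    (∀ K ∈ F, IsBody K) → IsSeparable strict F → IsNondegenerate twoSided F →
    (∀ G ⊆ F, G.card = k → InConvexPosition G) →
    ∃ G ⊆ F, G.card = m ∧ InConvexPosition G

open Pool.Agent.Lib.MP_41a254_co.Five

lemma upper (strict twoSided : Bool) (k : ℕ) (hk : 5 ≤ k) : Forces strict twoSided k := by
  classical
  intro m
  rcases m with _ | m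
  · exact ⟨0, fun F _ _ _ _ _ => ⟨∅, Finset.empty_subset _, rfl, fun C hC => absurd hC (by simp)⟩⟩
  obtain ⟨N, hN⟩ := main_idx m
  refine ⟨max N k, fun F hF hb hs hn hk' => ?_⟩
  have h5 : ∀ G ⊆ F, G.card = 5 → InConvexPosition G := by
    intro G hG hGc
    obtain ⟨G', g1, g2, g3⟩ := Finset.exists_subsuperset_card_eq (n := k) hG (by omega)
      (le_of_max_le_right hF)
    intro C hC
    obtain ⟨U, u1, u2, u3⟩ := hk' G' g2 g3 C (g1 hC)
    refine ⟨U, u1, u2, fun p hp => ⟨subset_closure (subset_convexHull ℝ _ (Set.mem_iUnion₂.mpr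
      ⟨C, hC, (hb C (hG hC)).1.isClosed.frontier_subset hp.2⟩)), fun hi => (u3 hp).2 ?_⟩⟩
    exact interior_mono (convexHull_mono (Set.biUnion_subset_biUnion_left g1)) hi
  let B : ℕ → Set E3 := fun i => if h : i < F.card then (F.equivFin.symm ⟨i, h⟩ : Set E3) else ∅
  have hBF : ∀ i ∈ Finset.range F.card, B i ∈ F := by
    intro i hi
    simp only [B, dif_pos (Finset.mem_range.mp hi)]
    exact (F.equivFin.symm _).2
  have hinj : ∀ i ∈ Finset.range F.card, ∀ j ∈ Finset.range F.card, B i = B j → i = j := by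
    intro i hi j hj h
    simp only [B, dif_pos (Finset.mem_range.mp hi), dif_pos (Finset.mem_range.mp hj)] at h
    simpa using F.equivFin.symm.injective (Subtype.ext h)
  have hne : ∀ i ∈ Finset.range F.card, ∀ j ∈ Finset.range F.card, i ≠ j → B i ≠ B j :=
    fun i hi j hj h e => h (hinj i hi j hj e)
  have hcard : ∀ T ⊆ Finset.range F.card, (T.image B).card = T.card :=
    fun T hT => Finset.card_image_of_injOn fun i hi j hj h => hinj i (hT hi) j (hT hj) h
  have hsub : ∀ T ⊆ Finset.range F.card, T.image B ⊆ F := by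
    intro T hT K hK
    obtain ⟨i, hi, rfl⟩ := Finset.mem_image.mp hK
    exact hBF i (hT hi)
  have hun : ∀ T : Finset ℕ, (⋃ K ∈ T.image B, K) = ⋃ i ∈ T, B i :=
    fun T => Finset.set_biUnion_finset_image
  obtain ⟨T, hT, hTc, hp⟩ := hN B (Finset.range F.card) (by simpa using le_of_max_le_left hF)
    (fun i hi => hb _ (hBF i hi)) (by
      intro i hi j hj k hk h1 h2 h3
      obtain ⟨f, c, hf, g1, g2⟩ := hs _ (hBF i hi) _ (hBF j hj) _ (hBF k hk) (hne i hi j hj h1)
        (hne i hi k hk h2) (hne j hj k hk h3)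
      obtain ⟨w, hw, hfw⟩ := exists_vec f hf
      refine ⟨w, hw, fun x hx y hy => ?_⟩
      rw [← hfw, ← hfw]
      exact (g1 y hy).1.trans (g2 x hx).1) (by
      intro a ha i hi j hj k hk h1 h2 h3 h4 h5 h6 u c hu s1 s2 s3 s4
      refine hn _ (hBF a ha) _ (hBF i hi) _ (hBF j hj) _ (hBF k hk) (hne a ha i hi h1)
        (hne a ha j hj h2) (hne a ha k hk h3) (hne i hi j hj h4) (hne i hi k hk h5)
        (hne j hj k hk h6) ⟨innerSL ℝ u, c, ?_, ⟨s1.1, Or.inl s1.2⟩, ⟨s2.1, Or.inl s2.2⟩,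
          ⟨s3.1, Or.inl s3.2⟩, ⟨s4.1, Or.inl s4.2⟩⟩
      intro h
      have := congrArg (fun g : E3 →L[ℝ] ℝ => g u) h
      exact hu (by simpa using this)) (by
      intro T hT hTc a ha
      have := h5 _ (hsub T hT) (by rw [hcard T hT, hTc]) (B a) (Finset.mem_image_of_mem B ha)
      rwa [hun] at this)
  refine ⟨T.image B, hsub T hT, by rw [hcard T hT, hTc], ?_⟩
  intro C hC
  obtain ⟨a, ha, rfl⟩ := Finset.mem_image.mp hC
  rw [hun]
  exact hp a ha

lemma lower (strict twoSided : Bool) (k : ℕ) (hk : k ≤ 4) : ¬ Forces strict twoSided k := by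
  classical
  intro hF
  obtain ⟨n, hn⟩ := hF 5
  obtain ⟨A, w, h1, h2, h3, h4, h5⟩ := sharp_idx n
  have hinj : Function.Injective A := by
    intro i j h
    by_contra hij
    obtain ⟨-, c, g1, g2⟩ := h2 j
    obtain ⟨p, hp⟩ := (h1 i).2.2
    exact lt_asymm (g1 i hij p (interior_subset hp)) (g2 p (h ▸ interior_subset hp))
  have hmem : ∀ K, K ∈ Finset.univ.image A → ∃ a, A a = K := by
    intro K; simp
  have hun : ∀ T : Finset (Fin n), (⋃ K ∈ T.image A, K) = ⋃ i ∈ T, A i :=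
    fun T => Finset.set_biUnion_finset_image
  obtain ⟨G, hG, hGc, hcp⟩ := hn (Finset.univ.image A)
    (by rw [Finset.card_image_of_injective _ hinj]; simp) (by
      intro K hK
      obtain ⟨a, rfl⟩ := hmem K hK
      exact h1 a) (by
      intro X hX Y hY Z hZ _ hXZ hYZ
      obtain ⟨a, rfl⟩ := hmem _ hX
      obtain ⟨b, rfl⟩ := hmem _ hY
      obtain ⟨d, rfl⟩ := hmem _ hZ
      obtain ⟨hw, c, g1, g2⟩ := h2 d
      refine ⟨innerSL ℝ (w d), c, fun h => ?_, ?_, fun z hz => ⟨(g2 z hz).le, fun _ => g2 z hz⟩⟩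
      · have := congrArg (fun g : E3 →L[ℝ] ℝ => g (w d)) h
        exact hw (by simpa using this)
      · rintro z (hz | hz)
        · have := g1 a (fun e => hXZ (by rw [e])) z hz
          exact ⟨this.le, fun _ => this⟩
        · have := g1 b (fun e => hYZ (by rw [e])) z hz
          exact ⟨this.le, fun _ => this⟩) (by
      rintro X hX Y hY Z hZ W hW e1 e2 e3 e4 e5 e6
        ⟨f, c, hf, ⟨⟨p, hp, q1⟩, -⟩, ⟨⟨q, hq, q2⟩, -⟩, ⟨⟨r, hr, q3⟩, -⟩, ⟨⟨s, hs, q4⟩, -⟩⟩
      obtain ⟨a, rfl⟩ := hmem _ hX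
      obtain ⟨b, rfl⟩ := hmem _ hY
      obtain ⟨d, rfl⟩ := hmem _ hZ
      obtain ⟨e, rfl⟩ := hmem _ hW
      obtain ⟨u, hu, hfu⟩ := exists_vec f hf
      refine h3 a b d e (fun e => e1 (by rw [e])) (fun e => e2 (by rw [e]))
        (fun e => e3 (by rw [e])) (fun e => e4 (by rw [e])) (fun e => e5 (by rw [e]))
        (fun e => e6 (by rw [e])) u hu p hp q hq r hr s hs ?_
      simp only [← hfu, q1, q2, q3, q4, and_self]) (by
      intro G hG hGc C hC
      obtain ⟨T, -, rfl⟩ := Finset.subset_image_iff.mp hG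
      rw [Finset.card_image_of_injective _ hinj] at hGc
      obtain ⟨a, ha, rfl⟩ := Finset.mem_image.mp hC
      rw [hun]
      exact h4 T (by omega) a ha)
  obtain ⟨T, -, rfl⟩ := Finset.subset_image_iff.mp hG
  rw [Finset.card_image_of_injective _ hinj] at hGc
  obtain ⟨a, ha, hna⟩ := h5 T hGc.ge
  have := hcp (A a) (Finset.mem_image_of_mem A ha)
  rw [hun] at this
  exact hna this

theorem result (strict twoSided : Bool) (k : ℕ) : Forces strict twoSided k ↔ 5 ≤ k :=
  ⟨fun h => by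
    by_contra hk
    exact lower strict twoSided k (by omega) h, upper strict twoSided k⟩

end Pool.Agent.Results.MP_41a254_co.PieceThreshold
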